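import Pool.Agent.Lib.MP_a7bda3_al.Final

/-!
# The length of `q^F / q` for parameter ideals of generalized Cohen-Macaulay rings

For a generalized Cohen-Macaulay local ring `(R, m)` of characteristic `p` and dimension `d` and
every parameter ideal `q`, the length of `q^F / q` is at most
`∑ i, (d choose i) * length (0^F in H^i_m(R))`.

`H^i_m(R)` is computed by the Cech complex of an arbitrary finite sequence `y` which generates
an `m`-primary ideal, with the Frobenius of that complex.  The sequence `y` need not be related to
the system of parameters `x` that generates `q`.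

Proof: put `D = ` Cech complex of `y` and `C (n, j) = K(x_1 ^ n, ..., x_j ^ n; D)` (Koszul).
Frobenius maps `C (n, j)` to `C (p n, j)`.  All `H^i (C (n, j))` with `i < d` are killed by a power
of each `x_l` that does not depend on `n`, and this implies
`length N^i (n, j + 1) ≤ length N^(i - 1) (n, j) + length N^i (n, j)` for `i ≤ d`, where
`N^i (n, j)` is the part of `H^i (C (n, j))` killed by some power of Frobenius.
Finally `H^d (C (n, d)) = R / (x_1 ^ n, ..., x_d ^ n)`.
-/

namespace Pool.Agent.Results.MP_a7bda3_al.LengthBound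

open Pool.Agent.MP_a7bda3_al

universe u

/-- A module of finite length over a local ring is killed by a power of each element of the
maximal ideal. -/
theorem exists_pow_smul_eq_zero {R : Type*} [CommRing R] [IsLocalRing R] {H : Type*}
    [AddCommGroup H] [Module R H] (hH : Module.length R H ≠ ⊤) {r : R}
    (hr : r ∈ IsLocalRing.maximalIdeal R) : ∃ k : ℕ, ∀ h : H, r ^ k • h = 0 := by
  obtain ⟨hN, hA⟩ := isFiniteLength_iff_isNoetherian_isArtinian.1 (Module.length_ne_top_iff.1 hH)
  let f : ℕ →o (Submodule R H)ᵒᵈ :=
    { toFun := fun k => OrderDual.toDual ((⊤ : Submodule R H).map (r ^ k • LinearMap.id))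
      monotone' := by
        intro a b hab
        change (⊤ : Submodule R H).map (r ^ b • LinearMap.id) ≤
          (⊤ : Submodule R H).map (r ^ a • LinearMap.id)
        rintro _ ⟨h, -, rfl⟩
        refine ⟨r ^ (b - a) • h, Submodule.mem_top, ?_⟩
        simp only [LinearMap.smul_apply, LinearMap.id_apply, smul_smul]
        rw [← pow_add, Nat.add_sub_cancel' hab] }
  obtain ⟨k, hk⟩ := IsArtinian.monotone_stabilizes f
  have h1 : (⊤ : Submodule R H).map (r ^ k • LinearMap.id) =
      (⊤ : Submodule R H).map (r ^ (k + 1) • LinearMap.id) := hk (k + 1) (Nat.le_succ k)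
  have h2 : (⊤ : Submodule R H).map (r ^ k • LinearMap.id) = ⊥ := by
    refine Submodule.eq_bot_of_le_smul_of_le_jacobson_bot (IsLocalRing.maximalIdeal R) _
      (IsNoetherian.noetherian _) ?_ (IsLocalRing.maximalIdeal_le_jacobson _)
    rintro z hz
    rw [h1] at hz
    obtain ⟨h, -, rfl⟩ := hz
    have : (r ^ (k + 1) • LinearMap.id : H →ₗ[R] H) h = r • (r ^ k • h) := by
      simp [smul_smul, pow_succ']
    rw [this]
    exact Submodule.smul_mem_smul hr ⟨h, Submodule.mem_top, rfl⟩
  refine ⟨k, fun h => ?_⟩
  have h3 : r ^ k • h ∈ (⊤ : Submodule R H).map (r ^ k • LinearMap.id) :=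
    ⟨h, Submodule.mem_top, rfl⟩
  rwa [h2, Submodule.mem_bot] at h3

/-- Let `R` be a Noetherian local ring of characteristic `p` and dimension `d`, let `y` be a
sequence whose ideal has radical the maximal ideal, and assume that `R` is generalized
Cohen-Macaulay.  Then for every system of parameters `x` of `R`, with `q = (x)`, the length of
`q^F / q` is at most `∑ i ∈ {0, ..., d}, (d choose i) * length (0^F in H^i_m(R))`. -/
theorem result {R : Type u} [CommRing R] [IsNoetherianRing R] [IsLocalRing R]
    (p : ℕ) [Fact p.Prime] [CharP R p] (d : ℕ) (_hd : ringKrullDim R = d)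
    {s : ℕ} (y : Fin s → R)
    (hy : (Ideal.span (Set.range y)).radical = IsLocalRing.maximalIdeal R)
    (hgCM : ∀ i : ℕ, i < d → Module.length R (H y i) ≠ ⊤)
    (x : Fin d → R) (q : Ideal R) (hq : q = Ideal.span (Set.range x))
    (hx : q.radical = IsLocalRing.maximalIdeal R) :
    Module.length R (frobeniusClosure p q ⧸ q.submoduleOf (frobeniusClosure p q)) ≤
      ∑ i ∈ Finset.range (d + 1),
        (d.choose i : ℕ∞) * Module.length R (nilpotentPart p y i) := by
  have hset : {r | r ∈ List.ofFn x} = Set.range x := by
    ext r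
    simp [List.mem_ofFn]
  have hlen : (List.ofFn x).length = d := List.length_ofFn
  have hq' : Ideal.span {r | r ∈ List.ofFn x} = q := by rw [hset, hq]
  have hmem : ∀ r ∈ List.ofFn x, r ∈ IsLocalRing.maximalIdeal R := by
    intro r hr
    rw [← hx, ← hq']
    exact Ideal.le_radical (Ideal.subset_span hr)
  have key := general p y (List.ofFn x) ?_ ?_
  · rw [hlen, hq'] at key
    exact key
  · intro i
    rw [hq', hx, ← hy]
    exact Ideal.le_radical (Ideal.subset_span ⟨i, rfl⟩)
  · intro r hr
    have hk : ∀ i : ℕ, ∃ k : ℕ, i < d → ∀ h : H y i, r ^ k • h = 0 := by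
      intro i
      by_cases hi : i < d
      · obtain ⟨k, hk⟩ := exists_pow_smul_eq_zero (hgCM i hi) (hmem r hr)
        exact ⟨k, fun _ => hk⟩
      · exact ⟨0, fun h => absurd h hi⟩
    choose k hk using hk
    refine ⟨∑ i ∈ Finset.range d, k i, ?_⟩
    intro i hi z hz
    rw [hlen] at hi
    rcases lt_or_ge i 0 with hi0 | hi0
    · have h0 : z = 0 := by
        funext S
        exact hz.1 S (by omega)
      rw [h0, smul_zero]
      exact zero_mem _
    · obtain ⟨j, rfl⟩ := Int.eq_ofNat_of_zero_le hi0
      have hj : j < d := by exact_mod_cast hi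
      have h1 := hk j hj (cls y j ⟨z, hz⟩)
      rw [← map_smul, cls_eq_zero] at h1
      have h2 : r ^ k j • z ∈ coboundaries y j := h1
      have h3 : k j ≤ ∑ i ∈ Finset.range d, k i :=
        Finset.single_le_sum (fun _ _ => Nat.zero_le _) (Finset.mem_range.2 hj)
      rw [← Nat.sub_add_cancel h3, pow_add, mul_smul]
      exact Submodule.smul_mem _ _ h2

end Pool.Agent.Results.MP_a7bda3_al.LengthBound
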